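import Pool.Agent.H11.CL3
import Pool.Agent.H11.GDefs
import Pool.Agent.H23.GK

set_option autoImplicit false

namespace Pool.Agent.Results.MP_75fd85_lc.NPHard
open Pool.Agent.H11.PT SimpleGraph

/-- 3-connected: at least 4 vertices, and connected after deleting any at most 2 vertices -/
def ThreeConn {V : Type} (G : SimpleGraph V) : Prop :=
  4 ≤ Nat.card V ∧ ∀ S : Set V, S.ncard ≤ 2 → (G.induce Sᶜ).Connected

/-- exactly one `c`-bridge: chords of `c` plus components of `G - V(c)` number one -/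
def OneBridge {V : Type} (G : SimpleGraph V) {u : V} (c : G.Walk u u) : Prop :=
  Nat.card {e : G.edgeSet // e.1 ∉ c.edges ∧ ∀ v ∈ e.1, v ∈ c.support} +
    Nat.card (G.induce {v | v ∉ c.support}).ConnectedComponent = 1

/-- valid input: a 3-connected graph on `0, …, N-1` with an edge `st` -/
def Valid (y : ℕ × List (ℕ × ℕ) × ℕ × ℕ × ℕ) : Prop :=
  ThreeConn (gr y.1 y.2.1) ∧
    ∃ s t : Fin y.1, s.1 = y.2.2.1 ∧ t.1 = y.2.2.2.1 ∧ (gr y.1 y.2.1).Adj s t

/-- some induced nonseparating cycle through the edge `st` has length at most `k` -/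
def Short (y : ℕ × List (ℕ × ℕ) × ℕ × ℕ × ℕ) : Prop :=
  ∃ s t u : Fin y.1, s.1 = y.2.2.1 ∧ t.1 = y.2.2.2.1 ∧ ∃ c : (gr y.1 y.2.1).Walk u u,
    c.IsCycle ∧ s(s, t) ∈ c.edges ∧ OneBridge _ c ∧ c.length ≤ y.2.2.2.2

open Pool.Agent.H23.GK

def B (H n : ℕ) (Cl : ℕ → ℕ → Bool → Bool) (r k r' k' : ℕ) : Prop :=
  (r < H ∧ k = 0 ∧ r' = r ∧ 1 ≤ k') ∨ (r < H ∧ 1 ≤ k ∧ r' = r ∧ k' = k + 1) ∨
  (r = H ∧ k = 0 ∧ r' < H ∧ k' = 1) ∨ (r = H ∧ k = n + 1 ∧ r' < H ∧ k' = n + 1) ∨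
  (r = H ∧ k = 0 ∧ r' = H ∧ k' = n + 1) ∨
  (H ≤ r ∧ H ≤ r' ∧ k' = k + 1 ∧ ¬ (r = H + 1 ∧ k = 0) ∧ ¬ (r' = H + 1 ∧ k' = n + 1)) ∨
  (r < 3 ∧ k = 0 ∧ H ≤ r' ∧ ¬ (r' = H ∧ (k' = 0 ∨ k' = n + 1))) ∨
  (3 ≤ r ∧ r < H ∧ k = 0 ∧ H ≤ r' ∧ 1 ≤ k' ∧ k' ≤ n ∧ Cl (r - 3) (k' - 1) (r' == H) = true)

instance (H n : ℕ) (Cl : ℕ → ℕ → Bool → Bool) (r k r' k' : ℕ) : Decidable (B H n Cl r k r' k') := by
  unfold B; infer_instance

section
variable {H n : ℕ} {Cl : ℕ → ℕ → Bool → Bool}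

section
variable {r k r' k' : ℕ}
theorem b1 (h : r < H ∧ k = 0 ∧ r' = r ∧ 1 ≤ k') : B H n Cl r k r' k' := .inl h
theorem b2 (h : r < H ∧ 1 ≤ k ∧ r' = r ∧ k' = k + 1) : B H n Cl r k r' k' := .inr (.inl h)
theorem b3 (h : r = H ∧ k = 0 ∧ r' < H ∧ k' = 1) : B H n Cl r k r' k' := .inr (.inr (.inl h))
theorem b4 (h : r = H ∧ k = n + 1 ∧ r' < H ∧ k' = n + 1) : B H n Cl r k r' k' :=
  .inr (.inr (.inr (.inl h)))
theorem b5 (h : r = H ∧ k = 0 ∧ r' = H ∧ k' = n + 1) : B H n Cl r k r' k' :=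
  .inr (.inr (.inr (.inr (.inl h))))
theorem b6 (h : H ≤ r ∧ H ≤ r' ∧ k' = k + 1 ∧ ¬ (r = H + 1 ∧ k = 0) ∧
    ¬ (r' = H + 1 ∧ k' = n + 1)) : B H n Cl r k r' k' := .inr (.inr (.inr (.inr (.inr (.inl h)))))
theorem b7 (h : r < 3 ∧ k = 0 ∧ H ≤ r' ∧ ¬ (r' = H ∧ (k' = 0 ∨ k' = n + 1))) :
    B H n Cl r k r' k' := .inr (.inr (.inr (.inr (.inr (.inr (.inl h))))))
theorem b8 (h : 3 ≤ r ∧ r < H ∧ k = 0 ∧ H ≤ r' ∧ 1 ≤ k' ∧ k' ≤ n)
    (e : Cl (r - 3) (k' - 1) (r' == H) = true) : B H n Cl r k r' k' :=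
  .inr (.inr (.inr (.inr (.inr (.inr (.inr ⟨h.1, h.2.1, h.2.2.1, h.2.2.2.1, h.2.2.2.2.1,
    h.2.2.2.2.2, e⟩))))))
end

theorem comb (h3 : 3 ≤ H) (hn : 1 ≤ n) (hC : ∀ j, j + 3 < H → ∃ i < n, ∃ β, Cl j i β = true)
    {r1 k1 r2 k2 h : ℕ} (hh : h < 3) (h1 : h ≠ r1) (h2 : h ≠ r2) {F Gd : ℕ → ℕ → Prop}
    (hF : ∀ r k, r < H + 2 → k < n + 2 → ¬ (r = r1 ∧ k = k1) → ¬ (r = r2 ∧ k = k2) → F r k)
    (h0 : Gd h 0) (st : ∀ r k r' k', r < H + 2 → k < n + 2 → r' < H + 2 → k' < n + 2 → Gd r k →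
      F r' k' → (B H n Cl r k r' k' ∨ B H n Cl r' k' r k) → Gd r' k') :
    ∀ r k, r < H + 2 → k < n + 2 → F r k → Gd r k := by
  have core : ∀ r k, H ≤ r → r < H + 2 → k < n + 2 → F r k → Gd r k := fun r k a b c f => by
    have row : ∀ k, 1 ≤ k → k < n + 2 → Gd h k := fun k a b =>
      st h 0 h k (by omega) (by omega) (by omega) b h0 (hF _ _ (by omega) b (by omega) (by omega))
        (.inl (b1 (by omega)))
    by_cases e : r = H ∧ (k = 0 ∨ k = n + 1)
    · obtain ⟨rfl, rfl | rfl⟩ := e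
      · exact st h 1 _ _ (by omega) (by omega) b c (row 1 le_rfl (by omega)) f (.inr (b3 (by omega)))
      · exact st h (n + 1) _ _ (by omega) (by omega) b c (row _ (by omega) (by omega)) f
          (.inr (b4 (by omega)))
    · exact st h 0 _ _ (by omega) (by omega) b c h0 f (.inl (b7 (by omega)))
  have core' : ∀ r k, H ≤ r → r < H + 2 → k < n + 2 → ¬ (r = r1 ∧ k = k1) → ¬ (r = r2 ∧ k = k2) →
      Gd r k := fun r k a b c d e => core r k a b c (hF r k b c d e)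
  have left : ∀ y k, y < H → k < n + 1 → ¬ (r1 = H ∧ k1 = 0) → ¬ (r2 = H ∧ k2 = 0) →
      ¬ (r1 = y ∧ 1 ≤ k1 ∧ k1 ≤ k) → ¬ (r2 = y ∧ 1 ≤ k2 ∧ k2 ≤ k) → F y (k + 1) → Gd y (k + 1) := by
    intro y k a b c d
    induction k with
    | zero =>
      exact fun _ _ f => st H 0 _ _ (by omega) (by omega) (by omega) (by omega)
        (core' _ _ le_rfl (by omega) (by omega) (by omega) (by omega)) f (.inl (b3 (by omega)))
    | succ k ih =>
      exact fun e e' f => st y (k + 1) _ _ (by omega) (by omega) (by omega) (by omega)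
        (ih (by omega) (by omega) (by omega) (hF _ _ (by omega) (by omega) (by omega) (by omega)))
        f (.inl (b2 (by omega)))
  have right : ∀ y j k, k + j = n + 1 → y < H → 1 ≤ k → ¬ (r1 = H ∧ k1 = n + 1) →
      ¬ (r2 = H ∧ k2 = n + 1) → ¬ (r1 = y ∧ k < k1) → ¬ (r2 = y ∧ k < k2) → F y k → Gd y k := by
    intro y j
    induction j with
    | zero =>
      exact fun k a b c d e _ _ f => st H (n + 1) _ _ (by omega) (by omega) (by omega)
        (by omega) (core' _ _ le_rfl (by omega) (by omega) (by omega) (by omega)) f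
        (.inl (b4 (by omega)))
    | succ j ih =>
      exact fun k a b c d e g g' f => st y (k + 1) _ _ (by omega) (by omega) (by omega)
        (by omega) (ih _ (by omega) b (by omega) d e (by omega) (by omega)
        (hF _ _ (by omega) (by omega) (by omega) (by omega))) f (.inr (b2 (by omega)))
  have cen : ∀ y, y < H → F y 0 → Gd y 0 := fun y a f => by
    obtain ⟨r, k, b, c, d, e⟩ : ∃ r k, H ≤ r ∧ r < H + 2 ∧ (1 ≤ k ∧ k ≤ n) ∧ B H n Cl y 0 r k := by
      by_cases c : y < 3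
      · exact ⟨H, 1, le_rfl, by omega, by omega, b7 (by omega)⟩
      obtain ⟨i, h1, β, h2⟩ := hC (y - 3) (by omega)
      refine ⟨if β then H else H + 1, i + 1, by split <;> omega, by split <;> omega, by omega,
        b8 (by split <;> omega) ?_⟩
      cases β <;> simpa [show (H + 1 == H) = false by simp] using h2
    by_cases g : ¬ (r = r1 ∧ k = k1) ∧ ¬ (r = r2 ∧ k = k2)
    · exact st r k _ _ c (by omega) (by omega) (by omega) (core' _ _ b c (by omega) g.1 g.2) f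
        (.inr e)
    by_cases g' : ¬ (r1 = H ∧ k1 = 0) ∧ ¬ (r2 = H ∧ k2 = 0) ∧ ¬ (r1 = y ∧ k1 = 1) ∧
        ¬ (r2 = y ∧ k2 = 1)
    · exact st y 1 _ _ (by omega) (by omega) (by omega) (by omega) (left y 0 a (by omega) g'.1
        g'.2.1 (by omega) (by omega) (hF _ _ (by omega) (by omega) (by omega) (by omega))) f
        (.inr (b1 (by omega)))
    · exact st y (n + 1) _ _ (by omega) (by omega) (by omega) (by omega) (st H (n + 1) _ _
        (by omega) (by omega) (by omega) (by omega) (core' _ _ le_rfl (by omega) (by omega)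
        (by omega) (by omega)) (hF _ _ (by omega) (by omega) (by omega) (by omega))
        (.inl (b4 (by omega)))) f (.inr (b1 (by omega)))
  intro r k a b f
  by_cases c : H ≤ r
  · exact core r k c a b f
  rcases k with _ | k
  · exact cen r (by omega) f
  by_cases g : ¬ (r = r1 ∧ 0 = k1) ∧ ¬ (r = r2 ∧ 0 = k2)
  · exact st r 0 _ _ a (by omega) a b (cen r (by omega) (hF _ _ a (by omega) g.1 g.2)) f
      (.inl (b1 (by omega)))
  by_cases g' : ¬ (r1 = H ∧ k1 = 0) ∧ ¬ (r2 = H ∧ k2 = 0) ∧ ¬ (r1 = r ∧ 1 ≤ k1 ∧ k1 ≤ k) ∧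
      ¬ (r2 = r ∧ 1 ≤ k2 ∧ k2 ≤ k)
  · exact left r k (by omega) (by omega) g'.1 g'.2.1 g'.2.2.1 g'.2.2.2 f
  · exact right r (n - k) _ (by omega) (by omega) (by omega) (by omega) (by omega) (by omega)
      (by omega) f

variable {V : Type} [Fintype V] {G : SimpleGraph V} {ρ κ : V → ℕ} {mk : ℕ → ℕ → V}

theorem three (h3 : 3 ≤ H) (hn : 1 ≤ n) (hC : ∀ j, j + 3 < H → ∃ i < n, ∃ β, Cl j i β = true)
    (hv : ∀ v, ρ v < H + 2 ∧ κ v < n + 2 ∧ mk (ρ v) (κ v) = v)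
    (hm : ∀ r k, r < H + 2 → k < n + 2 → ρ (mk r k) = r ∧ κ (mk r k) = k)
    (hA : ∀ u v, G.Adj u v ↔ B H n Cl (ρ u) (κ u) (ρ v) (κ v) ∨ B H n Cl (ρ v) (κ v) (ρ u) (κ u))
    (S : Set V) (hS : S.ncard ≤ 2) : (G.induce Sᶜ).Connected := by
  obtain ⟨p, q, h⟩ : ∃ p q, ∀ x ∈ S, x = p ∨ x = q := by
    rcases hS.lt_or_eq with h | h
    · rcases (Set.ncard_le_one_iff_eq (Set.toFinite S)).1 (by omega) with rfl | ⟨p, rfl⟩
      · exact ⟨mk 0 0, mk 0 0, by simp⟩
      · exact ⟨p, p, by simp⟩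
    · obtain ⟨p, q, -, rfl⟩ := Set.ncard_eq_two.1 h
      exact ⟨p, q, by simp⟩
  have hF : ∀ r k, r < H + 2 → k < n + 2 → ¬ (r = ρ p ∧ k = κ p) → ¬ (r = ρ q ∧ k = κ q) →
      mk r k ∈ Sᶜ := fun r k a b c d e => by
    have := hm r k a b
    rcases h _ e with rfl | rfl <;> omega
  obtain ⟨y, y0, y1, y2⟩ : ∃ y < 3, y ≠ ρ p ∧ y ≠ ρ q := by
    by_cases a : 0 ≠ ρ p ∧ 0 ≠ ρ q
    · exact ⟨0, by omega, a⟩
    by_cases b : 1 ≠ ρ p ∧ 1 ≠ ρ q
    · exact ⟨1, by omega, b⟩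
    · exact ⟨2, by omega, by omega⟩
  refine conn (hF y 0 (by omega) (by omega) (by omega) (by omega)) fun P a b x hx => ?_
  obtain ⟨c, d, e⟩ := hv x
  rw [← e] at hx ⊢
  refine comb h3 hn hC y0 y1 y2 (Gd := fun r k => P (mk r k)) hF a
    (fun r k r' k' a1 a2 a3 a4 a5 a6 a7 => b _ _ a5 a6 ?_) _ _ c d hx
  rw [hA, (hm r k a1 a2).1, (hm r k a1 a2).2, (hm r' k' a3 a4).1, (hm r' k' a3 a4).2]
  exact a7

theorem fwd (h3 : 3 ≤ H) (hn : 1 ≤ n)
    (hv : ∀ v, ρ v < H + 2 ∧ κ v < n + 2 ∧ mk (ρ v) (κ v) = v)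
    (hm : ∀ r k, r < H + 2 → k < n + 2 → ρ (mk r k) = r ∧ κ (mk r k) = k)
    (hA : ∀ u v, G.Adj u v ↔ B H n Cl (ρ u) (κ u) (ρ v) (κ v) ∨ B H n Cl (ρ v) (κ v) (ρ u) (κ u))
    (σ : ℕ → Bool) (hσ : ∀ j, j + 3 < H → ∃ i < n, Cl j i (σ i) = true) :
    ∃ u, ∃ c : G.Walk u u, c.IsCycle ∧ s(mk H 0, mk H (n + 1)) ∈ c.edges ∧ OneBridge _ c ∧
      c.length ≤ n + 2 := by
  let row : ℕ → ℕ := fun k => if 1 ≤ k ∧ k ≤ n ∧ σ (k - 1) = true then H + 1 else H
  have r1 : ∀ k, row k = H ∨ (row k = H + 1 ∧ 1 ≤ k ∧ k ≤ n) := fun k => by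
    simp only [row]; split <;> omega
  have hp : ∀ k ≤ n + 1, ρ (mk (row k) k) = row k ∧ κ (mk (row k) k) = k := fun k h =>
    hm _ _ (by have := r1 k; omega) (by omega)
  obtain ⟨c, c1, c2, c3, c4, c5⟩ := cycle_of (G := G) (fun k => mk (row k) k) (n + 1) (by omega)
    (fun i h => by
      have := r1 i
      have := r1 (i + 1)
      rw [hA, (hp i h.le).1, (hp i h.le).2, (hp (i + 1) h).1, (hp (i + 1) h).2]
      exact .inl (b6 (by omega)))
    (by
      have := r1 0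
      have := r1 (n + 1)
      rw [hA, (hp 0 (by omega)).1, (hp 0 (by omega)).2, (hp _ le_rfl).1, (hp _ le_rfl).2]
      exact .inr (b5 (by omega)))
    fun i a j b e => by rw [← (hp i a).2, ← (hp j b).2, e]
  have c3' : ∀ v, v ∈ c.support ↔ ρ v = row (κ v) := fun v => by
    rw [c3]
    obtain ⟨a, b, e⟩ := hv v
    refine ⟨fun ⟨i, h1, h2⟩ => ?_, fun h => ⟨κ v, by omega, by rw [← h, e]⟩⟩
    rw [← h2, (hp i h1).1, (hp i h1).2]
  refine ⟨_, c, c1, by simpa [row, Sym2.eq_swap] using c4, ?_, c2.le⟩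
  have e1 : IsEmpty {e : G.edgeSet // e.1 ∉ c.edges ∧ ∀ v ∈ e.1, v ∈ c.support} := by
    refine ⟨fun ⟨⟨e, h1⟩, h2, h3⟩ => ?_⟩
    induction e using Sym2.ind with | _ x y => ?_
    obtain ⟨i, hi, rfl⟩ := (c3 x).1 (h3 x (by simp))
    obtain ⟨j, hj, rfl⟩ := (c3 y).1 (h3 y (by simp))
    rw [mem_edgeSet, hA, (hp i hi).1, (hp i hi).2, (hp _ hj).1, (hp _ hj).2] at h1
    have := r1 i
    have := r1 j
    have : j = i + 1 ∨ i = j + 1 ∨ (i = 0 ∧ j = n + 1) ∨ (j = 0 ∧ i = n + 1) := by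
      unfold B at h1; omega
    rcases this with rfl | rfl | ⟨rfl, rfl⟩ | ⟨rfl, rfl⟩
    · exact h2 (c5 i hj)
    · exact h2 (by dsimp only; rw [Sym2.eq_swap]; exact c5 j hi)
    · exact h2 (by dsimp only; rw [Sym2.eq_swap]; exact c4)
    · exact h2 c4
  have out : ∀ r k, r < H + 2 → k < n + 2 → r ≠ row k → mk r k ∉ c.support := fun r k a b h => by
    rwa [c3', (hm r k a b).1, (hm r k a b).2]
  have e2 : (G.induce {v | v ∉ c.support}).Connected := by
    refine conn (r := mk 0 0) (out 0 0 (by omega) (by omega) (by have := r1 0; omega))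
      fun P a b => ?_
    have st : ∀ r k r' k', r < H + 2 → k < n + 2 → r' < H + 2 → k' < n + 2 → P (mk r k) →
        r' ≠ row k' → (B H n Cl r k r' k' ∨ B H n Cl r' k' r k) → P (mk r' k') :=
      fun r k r' k' a1 a2 a3 a4 a5 a6 a7 => b _ _ a5 (out _ _ a3 a4 a6) (by
        rwa [hA, (hm r k a1 a2).1, (hm r k a1 a2).2, (hm r' k' a3 a4).1, (hm r' k' a3 a4).2])
    have core : ∀ r k, H ≤ r → r < H + 2 → k < n + 2 → r ≠ row k → P (mk r k) :=
      fun r k a1 a2 a3 a4 => st 0 0 r k (by omega) (by omega) a2 a3 a a4 (by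
        have := r1 k
        have : row 0 = H := by simp [row]
        have : row (n + 1) = H := by simp [row]
        have : r = H → k ≠ 0 ∧ k ≠ n + 1 := by
          rintro rfl; constructor <;> rintro rfl <;> omega
        exact .inl (b7 (by omega)))
    have cen : ∀ y < H, P (mk y 0) := fun y hy => by
      have := r1 0
      by_cases c : y < 3
      · exact st (H + 1) 0 _ _ (by omega) (by omega) (by omega) (by omega)
          (core _ _ (by omega) (by omega) (by omega) (by omega)) (by omega) (.inr (b7 (by omega)))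
      obtain ⟨i, h1, h2⟩ := hσ (y - 3) (by omega)
      refine st (if σ i then H else H + 1) (i + 1) _ _ (by split <;> omega) (by omega) (by omega)
        (by omega) (core _ _ (by split <;> omega) (by split <;> omega) (by omega) ?_) (by omega)
        (.inr (b8 (by split <;> omega) ?_))
      · simp only [row]
        cases e : σ i <;> simp [e]; omega
      · cases e : σ i <;> simpa [e, show (H + 1 == H) = false by simp] using h2
    intro x hx
    obtain ⟨a1, a2, e⟩ := hv x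
    rw [← e]
    have hx : ρ x ≠ row (κ x) := fun c => hx ((c3' x).2 c)
    by_cases c : H ≤ ρ x
    · exact core _ _ c a1 a2 hx
    by_cases d : κ x = 0
    · exact d ▸ cen _ (by omega)
    · exact st _ 0 _ _ a1 (by omega) a1 a2 (cen _ (by omega)) hx (.inl (b1 (by omega)))
  have := e2.nonempty
  have := e2.preconnected.subsingleton_connectedComponent
  rw [OneBridge, Nat.card_of_isEmpty, zero_add, Nat.card_eq_one_iff_unique]
  exact ⟨this, inferInstance⟩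

theorem bwd (h3 : 3 ≤ H) (hn : 1 ≤ n)
    (hv : ∀ v, ρ v < H + 2 ∧ κ v < n + 2 ∧ mk (ρ v) (κ v) = v)
    (hm : ∀ r k, r < H + 2 → k < n + 2 → ρ (mk r k) = r ∧ κ (mk r k) = k)
    (hA : ∀ u v, G.Adj u v ↔ B H n Cl (ρ u) (κ u) (ρ v) (κ v) ∨ B H n Cl (ρ v) (κ v) (ρ u) (κ u))
    {u : V} {c : G.Walk u u} (c1 : c.IsCycle) (c2 : s(mk H 0, mk H (n + 1)) ∈ c.edges)
    (c3 : OneBridge _ c) (c4 : c.length ≤ n + 2) :
    ∃ σ : ℕ → Bool, ∀ j, j + 3 < H → ∃ i, Cl j i (σ i) = true := by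
  classical
  have hs := c.fst_mem_support_of_mem_edges c2
  have ht := c.snd_mem_support_of_mem_edges c2
  have ms := hm H 0 (by omega) (by omega)
  have mt := hm H (n + 1) (by omega) (by omega)
  have rch : ∀ x y : {v | v ∉ c.support}, (G.induce {v | v ∉ c.support}).Reachable x y :=
    fun x y => ConnectedComponent.exact ((Finite.card_le_one_iff_subsingleton.1
      (by unfold OneBridge at c3; omega)).elim _ _)
  have fan : ∀ y < H, ∃ x, x ∉ c.support ∧ ρ x = y := fun y hy => by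
    by_contra! h
    have := Finset.card_le_card_of_injOn (s := Finset.range (n + 3)) (t := c.support.toFinset)
      (fun k => if k = n + 2 then mk H 0 else mk y k) (fun k hk => by
        simp only [Finset.coe_range, Set.mem_Iio, List.coe_toFinset, Set.mem_ofPred_eq] at hk ⊢
        split
        · exact hs
        · by_contra c; exact h _ c (hm y k (by omega) (by omega)).1)
      fun i hi j hj e => by
        simp only [Finset.coe_range, Set.mem_Iio] at hi hj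
        have e1 := congrArg ρ e
        have e2 := congrArg κ e
        have := hm y i (by omega)
        have := hm y j (by omega)
        simp only at e1 e2
        split_ifs at e1 e2 <;> omega
    have := card_support c1
    simp at *; omega
  have ext : ∀ x, ρ x = H → κ x = 0 ∨ κ x = n + 1 → x ∈ c.support := fun x a b => by
    rw [← (hv x).2.2, a]
    rcases b with b | b <;> rwa [b]
  have esc : ∀ y < H, ∃ x, x ∉ c.support ∧ ρ x = y ∧ κ x = 0 ∧ ∃ z, z ∉ c.support ∧ H ≤ ρ z ∧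
      B H n Cl y 0 (ρ z) (κ z) := fun y hy => by
    by_contra! h
    obtain ⟨x, x1, x2⟩ := fan y hy
    obtain ⟨z, z1, z2⟩ := fan (if y = 0 then 1 else 0) (by split <;> omega)
    have := closed (fun v => ρ v = y) (fun a ha b hb e h1 => by
      have h2 := h a ha h1
      have h3 : ¬ (ρ b = H ∧ (κ b = 0 ∨ κ b = n + 1)) := fun c => hb (ext b c.1 c.2)
      rw [hA, h1] at e
      by_contra h4
      by_cases h5 : κ a = 0
      · rw [h5] at e
        have : H ≤ ρ b := by unfold B at e; omega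
        refine h2 h5 b hb this (e.resolve_right ?_)
        unfold B; omega
      · unfold B at e; omega) (rch ⟨x, x1⟩ ⟨z, z1⟩) x2
    simp only [z2] at this
    split at this <;> omega
  have cen : ∀ x ∈ c.support, ρ x < H → κ x ≠ 0 := fun x a b e => by
    obtain ⟨z, z1, z2, z3, -⟩ := esc _ b
    exact z1 (by rwa [← (hv z).2.2, z2, z3, ← e, (hv x).2.2])
  have lay : ∀ k, 1 ≤ k → k ≤ n → mk H k ∉ c.support → mk (H + 1) k ∈ c.support := by
    intro k k1 k2 a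
    by_contra b
    have hk : ∀ x ∈ c.support, H ≤ ρ x → κ x ≠ k := fun x h1 h2 h3 => by
      obtain ⟨h4, -, h5⟩ := hv x
      rcases (by omega : ρ x = H ∨ ρ x = H + 1) with e | e <;> rw [e, h3] at h5 <;> simp_all
    have := (lip (fun x => if ρ x < H then (κ x : ℤ) else if κ x < k then 0 else n + 2) c
      c1.edges_nodup (fun x hx y hy e ne => by
        have := cen x hx
        have := cen y hy
        have := hk x hx
        have := hk y hy
        have := hv x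
        have := hv y
        have : ¬ (ρ x = H ∧ κ x = 0 ∧ ρ y = H ∧ κ y = n + 1) := fun c => ne (by
          rw [← (hv x).2.2, ← (hv y).2.2, c.1, c.2.1, c.2.2.1, c.2.2.2])
        have : ¬ (ρ y = H ∧ κ y = 0 ∧ ρ x = H ∧ κ x = n + 1) := fun c => ne (by
          rw [← (hv x).2.2, ← (hv y).2.2, c.1, c.2.1, c.2.2.1, c.2.2.2, Sym2.eq_swap])
        rw [hA] at e
        unfold B at e
        split_ifs <;> omega)).2 c2
    simp only [ms, mt] at this
    split_ifs at this <;> omega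
  refine ⟨fun i => decide (mk H (i + 1) ∉ c.support), fun j hj => ?_⟩
  obtain ⟨-, -, -, -, z, z1, z2, z3⟩ := esc _ hj
  obtain ⟨a1, a2, a3⟩ := hv z
  have : 1 ≤ κ z ∧ κ z ≤ n ∧ Cl j (κ z - 1) (ρ z == H) = true := by
    unfold B at z3
    rcases z3 with h | h | h | h | h | h | h | h
    all_goals first | omega | exact ⟨h.2.2.2.2.1, h.2.2.2.2.2.1, by simpa using h.2.2.2.2.2.2⟩
  refine ⟨κ z - 1, ?_⟩
  rw [← this.2.2]
  congr 1
  simp only [Nat.sub_add_cancel this.1]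
  rcases (by omega : ρ z = H ∨ ρ z = H + 1) with e | e <;> rw [e] at a3 ⊢
  · simp [a3, z1]
  · have := mt
    have := lay _ ‹_ ∧ _ ∧ _›.1 ‹_ ∧ _ ∧ _›.2.1
    simp_all

end

abbrev F3 := List (Lit × Lit × Lit)

def nv (φ : F3) : ℕ := (φ.map fun c => c.1.1 + c.2.1.1 + c.2.2.1).sum + 1

def cl (φ : F3) (j i : ℕ) (β : Bool) : Bool :=
  [(φ.getD j ((0, true), (0, true), (0, true))).1, (φ.getD j ((0, true), (0, true), (0, true))).2.1,
    (φ.getD j ((0, true), (0, true), (0, true))).2.2].contains (i, β)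

def ed (φ : F3) : List (ℕ × ℕ) :=
  (List.range ((φ.length + 5) * (nv φ + 2))).flatMap fun u =>
    ((List.range ((φ.length + 5) * (nv φ + 2))).filter fun v => decide (B (φ.length + 3) (nv φ)
      (cl φ) (u / (nv φ + 2)) (u % (nv φ + 2)) (v / (nv φ + 2)) (v % (nv φ + 2)))).map fun v => (u, v)

def red (φ : F3) : ℕ × List (ℕ × ℕ) × ℕ × ℕ × ℕ :=
  ((φ.length + 5) * (nv φ + 2), ed φ, (φ.length + 3) * (nv φ + 2),
    (φ.length + 3) * (nv φ + 2) + (nv φ + 1), nv φ + 2)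

theorem red_ok (φ : F3) : Valid (red φ) ∧ (SAT3 φ ↔ Short (red φ)) := by
  set N := (φ.length + 5) * (nv φ + 2) with hN
  have N0 : 0 < N := by positivity
  let mk : ℕ → ℕ → Fin N := fun r k => ⟨(r * (nv φ + 2) + k) % N, Nat.mod_lt _ N0⟩
  have mv : ∀ r k, r < φ.length + 3 + 2 → k < nv φ + 2 → (mk r k).1 = r * (nv φ + 2) + k :=
    fun r k a b => Nat.mod_eq_of_lt (by rw [hN]; nlinarith)
  have hv : ∀ v : Fin N, v.1 / (nv φ + 2) < φ.length + 3 + 2 ∧ v.1 % (nv φ + 2) < nv φ + 2 ∧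
      mk (v.1 / (nv φ + 2)) (v.1 % (nv φ + 2)) = v := fun v => by
    have a : v.1 / (nv φ + 2) < φ.length + 3 + 2 := (Nat.div_lt_iff_lt_mul (by omega)).2 v.2
    have b := Nat.mod_lt v.1 (show 0 < nv φ + 2 by omega)
    exact ⟨a, b, Fin.ext (by rw [mv _ _ a b, Nat.div_add_mod'])⟩
  have hm : ∀ r k, r < φ.length + 3 + 2 → k < nv φ + 2 →
      (mk r k).1 / (nv φ + 2) = r ∧ (mk r k).1 % (nv φ + 2) = k := fun r k a b => by
    rw [mv r k a b, add_comm, Nat.add_mul_div_right _ _ (by omega), Nat.add_mul_mod_self_right,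
      Nat.div_eq_of_lt b, Nat.mod_eq_of_lt b]
    simp
  have hA : ∀ u v : Fin N, (gr N (ed φ)).Adj u v ↔ B (φ.length + 3) (nv φ) (cl φ)
      (u.1 / (nv φ + 2)) (u.1 % (nv φ + 2)) (v.1 / (nv φ + 2)) (v.1 % (nv φ + 2)) ∨
      B (φ.length + 3) (nv φ) (cl φ) (v.1 / (nv φ + 2)) (v.1 % (nv φ + 2)) (u.1 / (nv φ + 2))
      (u.1 % (nv φ + 2)) := fun u v => by
    simp only [gr, fromRel_adj, ed, List.mem_flatMap, List.mem_map, List.mem_filter, List.mem_range,
      Prod.mk.injEq, decide_eq_true_eq, ← hN]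
    refine ⟨fun h => h.2.imp ?_ ?_, fun h => ⟨?_, h.imp (fun h => ⟨u, u.2, v, ⟨v.2, h⟩, rfl, rfl⟩)
      fun h => ⟨v, v.2, u, ⟨u.2, h⟩, rfl, rfl⟩⟩⟩
    · rintro ⟨_, -, _, h, rfl, rfl⟩; exact h.2
    · rintro ⟨_, -, _, h, rfl, rfl⟩; exact h.2
    · rintro rfl; unfold B at h; omega
  have n1 : 1 ≤ nv φ := by simp [nv]
  have gd : ∀ j (h : j < φ.length) i β, cl φ j i β = true ↔
      φ[j].1 = (i, β) ∨ φ[j].2.1 = (i, β) ∨ φ[j].2.2 = (i, β) := fun j h i β => by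
    simp only [cl, List.getD_eq_getElem _ _ h, List.contains_eq_mem, decide_eq_true_eq,
      List.mem_cons, List.not_mem_nil, or_false, @eq_comm _ (i, β)]
  have bd : ∀ j (h : j < φ.length), φ[j].1.1 + φ[j].2.1.1 + φ[j].2.2.1 < nv φ := fun j h =>
    Nat.lt_succ_of_le (List.single_le_sum (by simp) _ (List.mem_map.2 ⟨_, List.getElem_mem h, rfl⟩))
  have ms := mv (φ.length + 3) 0 (by omega) (by omega)
  have mt := mv (φ.length + 3) (nv φ + 1) (by omega) (by omega)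
  refine ⟨⟨⟨by simp only [red, Nat.card_eq_fintype_card, Fintype.card_fin]; nlinarith,
    three (by omega) n1 (fun j h => ?_) hv hm hA⟩, _, _, ms, mt, ?_⟩, fun ⟨σ, h⟩ => ?_, ?_⟩
  · have := bd j (by omega)
    exact ⟨φ[j].1.1, by omega, φ[j].1.2, (gd j (by omega) _ _).2 (.inl rfl)⟩
  · have a := hm (φ.length + 3) 0 (by omega) (by omega)
    have b := hm (φ.length + 3) (nv φ + 1) (by omega) (by omega)
    refine (hA _ _).2 ?_
    rw [a.1, a.2, b.1, b.2]
    exact .inl (b5 (by omega))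
  · obtain ⟨u, c, h⟩ := fwd (by omega) n1 hv hm hA σ fun j hj => by
      have := bd j (by omega)
      rcases h _ (List.getElem_mem (show j < φ.length by omega)) with h | h | h
      · exact ⟨φ[j].1.1, by omega, (gd j (by omega) _ _).2 (.inl (Prod.ext rfl h.symm))⟩
      · exact ⟨φ[j].2.1.1, by omega, (gd j (by omega) _ _).2 (.inr (.inl (Prod.ext rfl h.symm)))⟩
      · exact ⟨φ[j].2.2.1, by omega, (gd j (by omega) _ _).2 (.inr (.inr (Prod.ext rfl h.symm)))⟩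
    exact ⟨_, _, u, ms, mt, c, h⟩
  · rintro ⟨s, t, u, h1, h2, c, c1, c2, c3, c4⟩
    obtain rfl : s = mk (φ.length + 3) 0 := Fin.ext (h1.trans ms.symm)
    obtain rfl : t = mk (φ.length + 3) (nv φ + 1) := Fin.ext (h2.trans mt.symm)
    obtain ⟨σ, h⟩ := bwd (by omega) n1 hv hm hA c1 c2 c3 c4
    refine ⟨σ, fun x hx => ?_⟩
    obtain ⟨j, hj, rfl⟩ := List.getElem_of_mem hx
    obtain ⟨i, hi⟩ := h j (by omega)
    rcases (gd j hj _ _).1 hi with e | e | e <;> simp [e]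

theorem result (L : List Bool → Prop) (hL : InNP L) :
    ∃ f : List Bool → ℕ × List (ℕ × ℕ) × ℕ × ℕ × ℕ, PolyTime id bits f ∧
      ∀ x, Valid (f x) ∧ (L x ↔ Short (f x)) := by
  obtain ⟨g, hg, e⟩ := hard_SAT3 L hL
  have : PT red := by unfold red ed B cl nv; fun_prop
  exact ⟨_, (this.comp hg).polyTime_raw, fun x => ⟨(red_ok _).1, (e x).trans (red_ok _).2⟩⟩

end Pool.Agent.Results.MP_75fd85_lc.NPHard
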